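import Pool.Agent.H85.SL.Dens
import Pool.Agent.H85.SL.Binet
import Pool.Agent.H66.Aff
import Pool.Agent.H19.Bath
import Pool.Agent.H85.SL.AffInt

/-!
# Sections of the cube, intersections of slabs and marginals of product densities

For `n ≥ 2k` the largest volume of a `k`-dimensional central section of the cube `[-1/2, 1/2]^n` is
`√(T n k)`.  The same number is the sharp bound for affine sections, for the intersections of `n` slabs
in `ℝ^k` (in an affinely invariant form), and for products of even log-concave densities.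
-/

open MeasureTheory Matrix
open scoped ENNReal

namespace Pool.Agent.Results.MP_589a62_gt.SlabsAndDensities

/-- `T n k = ℓ ^ (k - r) * (ℓ + 1) ^ r`, where `n = k * ℓ + r` and `0 ≤ r < k`: the number of ways to
choose one element from each part of a partition of an `n`-element set into `k` parts of sizes `ℓ` and
`ℓ + 1`. -/
def T (n k : ℕ) : ℕ := (n / k) ^ (k - n % k) * (n / k + 1) ^ (n % k)

/-- The `k`-dimensional volume of the section of the cube `C^n = [-1/2, 1/2]^n` by the flat `a + S`;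
`μHE[k]` is Mathlib's `k`-dimensional Hausdorff measure, normalised so that it is Lebesgue measure on
`k`-dimensional Euclidean spaces. -/
noncomputable def sectionVolume {n : ℕ} (k : ℕ) (S : Submodule ℝ (EuclideanSpace ℝ (Fin n)))
    (a : EuclideanSpace ℝ (Fin n)) : ℝ≥0∞ :=
  μHE[k] {x : EuclideanSpace ℝ (Fin n) | x - a ∈ S ∧ ∀ i, |x i| ≤ 1 / 2}

/-- The intersection of the `n` slabs `|⟨u i, x⟩ - c i| ≤ 1/2` in `ℝ^k`. -/
def slabs {n k : ℕ} (u : Fin n → Fin k → ℝ) (c : Fin n → ℝ) : Set (Fin k → ℝ) :=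
  {x | ∀ i, |u i ⬝ᵥ x - c i| ≤ 1 / 2}

/-- The determinant of the `k` vectors `u i` with `i` in the `k`-element set `I` (the range of an
increasing map). -/
noncomputable def minor {n k : ℕ} (u : Fin n → Fin k → ℝ) (I : Fin k ↪o Fin n) : ℝ :=
  Matrix.det (Matrix.of fun a b => u (I a) b)

/-- `f` is a measurable, even, log-concave function with values at most `1` and integral at most `1`.
(For instance the indicator function of `[-1/2, 1/2]` or a centred Gaussian density of height at most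
`1`.) -/
structure IsDens (f : ℝ → ℝ≥0∞) : Prop where
  meas : Measurable f
  even : ∀ t, f (-t) = f t
  lc : ∀ s : ℝ, 0 < s → s < 1 → ∀ x y, f x ^ s * f y ^ (1 - s) ≤ f (s * x + (1 - s) * y)
  le_one : ∀ t, f t ≤ 1
  int : ∫⁻ t, f t ≤ 1

theorem T_cast (n k : ℕ) : ((T n k : ℕ) : ℝ) =
    ((n / k : ℕ) : ℝ) ^ (k - n % k) * (((n / k : ℕ) : ℝ) + 1) ^ (n % k) := by
  unfold T
  push_cast
  ring

theorem le_sqrt {v : ℝ≥0∞} {t : ℕ} (h : v ^ 2 ≤ ENNReal.ofReal (t : ℝ)) :
    v ≤ ENNReal.ofReal (√(t : ℝ)) := by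
  have h1 : ENNReal.ofReal (t : ℝ) = ENNReal.ofReal (√(t : ℝ)) ^ 2 := by
    rw [← ENNReal.ofReal_pow (Real.sqrt_nonneg _), Real.sq_sqrt (Nat.cast_nonneg t)]
  rw [h1] at h
  exact (ENNReal.pow_le_pow_left_iff two_ne_zero).1 h

/-- **Sections of the cube, slabs and densities.**  Let `n ≥ 2k`, `k ≥ 1`.
(1) The largest volume of a `k`-dimensional central section of the cube is `√(T n k)`.
(2) It is also the largest volume of all `k`-dimensional affine sections.
(3) For `n` slabs `|⟨u i, x⟩ - c i| ≤ 1/2` in arbitrary position in `ℝ^k`, with intersection `P`,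
`vol(P)² ∑_I det(u_I)² ≤ T n k`, the sum being over all `k`-element subsets `I` of the indices.
(4) Here `1 / |det u_I|` is the volume of the parallelotope cut out by the slabs in `I`.
(5) Equality holds for some slabs with `∑_I det(u_I)² > 0`.
(6) The same bound for products of densities: if the `f i` are measurable, even and log-concave with
values at most `1` and integral at most `1`, then
`(∫ ∏ f i (⟨u i, x⟩ - c i) dx)² ∑_I det(u_I)² ≤ T n k`.
(7) For such `f i` the integral of `∏ f i (x i)` over every `k`-dimensional affine subspace of `ℝ^n` is at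
most `√(T n k)`. -/
theorem result (n k : ℕ) (hk : 1 ≤ k) (hn : 2 * k ≤ n) :
    IsGreatest {v : ℝ≥0∞ | ∃ S : Submodule ℝ (EuclideanSpace ℝ (Fin n)),
      Module.finrank ℝ S = k ∧ v = sectionVolume k S 0} (ENNReal.ofReal (√(T n k : ℝ))) ∧
    IsGreatest {v : ℝ≥0∞ | ∃ (S : Submodule ℝ (EuclideanSpace ℝ (Fin n)))
      (a : EuclideanSpace ℝ (Fin n)), Module.finrank ℝ S = k ∧ v = sectionVolume k S a}
      (ENNReal.ofReal (√(T n k : ℝ))) ∧
    (∀ (u : Fin n → Fin k → ℝ) (c : Fin n → ℝ),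
      volume (slabs u c) ^ 2 * ENNReal.ofReal (∑ I : Fin k ↪o Fin n, minor u I ^ 2) ≤
        ENNReal.ofReal (T n k : ℝ)) ∧
    (∀ (u : Fin n → Fin k → ℝ) (c : Fin n → ℝ) (I : Fin k ↪o Fin n), minor u I ≠ 0 →
      volume (slabs (fun a => u (I a)) (fun a => c (I a))) = ENNReal.ofReal (1 / |minor u I|)) ∧
    (∃ (u : Fin n → Fin k → ℝ) (c : Fin n → ℝ), 0 < ∑ I : Fin k ↪o Fin n, minor u I ^ 2 ∧
      volume (slabs u c) ^ 2 * ENNReal.ofReal (∑ I : Fin k ↪o Fin n, minor u I ^ 2) =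
        ENNReal.ofReal (T n k : ℝ)) ∧
    (∀ f : Fin n → ℝ → ℝ≥0∞, (∀ i, IsDens (f i)) →
      (∀ (u : Fin n → Fin k → ℝ) (c : Fin n → ℝ),
        (∫⁻ x : Fin k → ℝ, ∏ i, f i (u i ⬝ᵥ x - c i)) ^ 2 *
          ENNReal.ofReal (∑ I : Fin k ↪o Fin n, minor u I ^ 2) ≤ ENNReal.ofReal (T n k : ℝ)) ∧
      ∀ (S : Submodule ℝ (EuclideanSpace ℝ (Fin n))) (a : EuclideanSpace ℝ (Fin n)),
        Module.finrank ℝ S = k →
        ∫⁻ x in {x : EuclideanSpace ℝ (Fin n) | x - a ∈ S}, ∏ i, f i (x i) ∂(μHE[k]) ≤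
          ENNReal.ofReal (√(T n k : ℝ))) := by
  have hdet : ∀ (u : Fin n → Fin k → ℝ) (c : Fin n → ℝ),
      volume (slabs u c) ^ 2 * ENNReal.ofReal (∑ i, vecMulVec (u i) (u i)).det ≤
        ENNReal.ofReal (T n k : ℝ) := by
    intro u c
    rw [T_cast]
    exact Pool.Agent.H85.SL.slab_det n k hk hn u c
  have hslab : ∀ (u : Fin n → Fin k → ℝ) (c : Fin n → ℝ),
      volume (slabs u c) ^ 2 * ENNReal.ofReal (∑ I : Fin k ↪o Fin n, minor u I ^ 2) ≤
        ENNReal.ofReal (T n k : ℝ) := by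
    intro u c
    have h := hdet u c
    rw [Pool.Agent.H85.SL.binet n k u] at h
    exact h
  have hatt : ∃ S : Submodule ℝ (EuclideanSpace ℝ (Fin n)), Module.finrank ℝ S = k ∧
      ENNReal.ofReal (√(T n k : ℝ)) = sectionVolume k S 0 := by
    obtain ⟨S, hS, hv⟩ := Pool.Agent.Helper345.CubeSec.attained n k hk (by omega)
    refine ⟨S, hS, ?_⟩
    rw [T_cast, ← hv]
    unfold sectionVolume
    simp only [sub_zero]
  have haff : ∀ (S : Submodule ℝ (EuclideanSpace ℝ (Fin n))) (a : EuclideanSpace ℝ (Fin n)),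
      Module.finrank ℝ S = k → sectionVolume k S a ≤ ENNReal.ofReal (√(T n k : ℝ)) := by
    intro S a hS
    obtain ⟨u, c, hu, hv⟩ := Pool.Agent.H66.Aff.affine_geo n k S hS a
    have h := hdet u c
    rw [hu, det_one, ENNReal.ofReal_one, mul_one] at h
    have e : sectionVolume k S a = volume (slabs u c) := hv
    rw [e]
    exact le_sqrt h
  have hdens : ∀ f : Fin n → ℝ → ℝ≥0∞, (∀ i, IsDens (f i)) →
      ∀ (u : Fin n → Fin k → ℝ) (c : Fin n → ℝ),
        ∫⁻ x : Fin k → ℝ, ∏ i, f i (u i ⬝ᵥ x - c i) ≤ volume (slabs u 0) := by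
    intro f hf u c
    exact Pool.Agent.H85.SL.dens_le Pool.Agent.H19.Bath.bath u c
      (fun i => ⟨(hf i).meas, (hf i).even, (hf i).lc, (hf i).le_one, (hf i).int⟩)
  refine ⟨⟨hatt, ?_⟩, ⟨?_, ?_⟩, hslab, ?_, ?_, ?_⟩
  · rintro v ⟨S, hS, rfl⟩
    exact haff S 0 hS
  · obtain ⟨S, hS, hv⟩ := hatt
    exact ⟨S, 0, hS, hv⟩
  · rintro v ⟨S, a, hS, rfl⟩
    exact haff S a hS
  · intro u c I h
    exact Pool.Agent.H85.SL.volQ k (fun a => u (I a)) (fun a => c (I a)) h
  · obtain ⟨S, hS, hv⟩ := hatt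
    obtain ⟨u, c, hu, hvol⟩ := Pool.Agent.H66.Aff.affine_geo n k S hS 0
    have hb := Pool.Agent.H85.SL.binet n k u
    rw [hu, det_one] at hb
    have hb' : ∑ I : Fin k ↪o Fin n, minor u I ^ 2 = 1 := hb.symm
    refine ⟨u, c, by rw [hb']; exact one_pos, ?_⟩
    have e : volume (slabs u c) = ENNReal.ofReal (√(T n k : ℝ)) := by
      rw [hv]
      exact hvol.symm
    rw [hb', e, ENNReal.ofReal_one, mul_one, ← ENNReal.ofReal_pow (Real.sqrt_nonneg _),
      Real.sq_sqrt (Nat.cast_nonneg _)]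
  · intro f hf
    refine ⟨fun u c => ?_, fun S a hS => ?_⟩
    · exact (mul_le_mul' (pow_le_pow_left' (hdens f hf u c) 2) le_rfl).trans (hslab u 0)
    · obtain ⟨u, c, hu, hG⟩ := Pool.Agent.H85.SL.affine_int n k S hS a
      have hm : Measurable fun y : Fin n → ℝ => ∏ i, f i (y i) :=
        Finset.measurable_prod _ fun i _ => (hf i).meas.comp (measurable_pi_apply i)
      rw [hG _ hm]
      refine (hdens f hf u c).trans (le_sqrt ?_)
      have h := hdet u 0
      rwa [hu, det_one, ENNReal.ofReal_one, mul_one] at h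

end Pool.Agent.Results.MP_589a62_gt.SlabsAndDensities
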